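import Mathlib
import Pool.Agent.Lib.MP_5514a7_co.Defs
import Pool.Agent.Lib.MP_5514a7_co.Proof

set_option autoImplicit false

namespace Pool.Agent.Results.MP_5514a7_co.StableNonMonotone

open Pool.Agent.MP_5514a7_co

/-- The non-monotone consecutive pattern `13245` is stable. -/
theorem result : Stable p13245 ∧ ¬ (Monotone p13245 ∨ Antitone p13245) :=
  ⟨stable_p13245, not_monotone_p13245⟩

end Pool.Agent.Results.MP_5514a7_co.StableNonMonotone
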